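import Mathlib
import Pool.Agent.Lib.MP_1ad17e_al_h58.SylG
import Pool.Agent.Lib.MP_1ad17e_al_h59.Base

/-!
MP_1ad17e_al: definitions for the commutation theorem.
-/

set_option autoImplicit false

namespace E1adP

open Subgroup E1adH58 E1adH59
open scoped commutatorElement

variable {G : Type*} [Group G]

/-- the involutions with a `2 ^ k`-th root -/
def YY (G : Type*) [Group G] (k : ℕ) : Set G := {y | y * y = 1 ∧ y ≠ 1 ∧ ∃ r : G, r ^ (2 ^ k) = y}

/-- all 2-subgroups have class at most `n` -/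
def Cls (G : Type*) [Group G] (n : ℕ) : Prop :=
  ∀ T : Subgroup G, IsPGroup 2 T → T.lowerCentralSeries n = ⊥

/-- `y` commutes with all involutions of `S` -/
def Cent (y : G) (S : Subgroup G) : Prop := ∀ v ∈ S, v * v = 1 → y * v = v * y

/-- `W` is the subgroup of a bad pair of maximal order -/
def Bad (k : ℕ) (W : Subgroup G) : Prop :=
  (∃ (T : Subgroup G) (y : G), MaxTwo ⊤ T ∧ y ∈ YY G k ∧ y ∈ T ∧ ¬ Cent y T ∧
    Om (T ⊓ centralizer {y}) = W) ∧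
  ∀ (T : Subgroup G) (y : G), MaxTwo ⊤ T → y ∈ YY G k → y ∈ T → ¬ Cent y T →
    Nat.card (Om (T ⊓ centralizer {y}) : Subgroup G) ≤ Nat.card W

/-- `Σ` -/
def Sg (k : ℕ) (W : Subgroup G) : Set G := {y | y ∈ YY G k ∧ y ∈ W ∧ ∀ w ∈ W, y * w = w * y}

/-- `I`: the involutions of `N(W)` outside `W` -/
def II (W : Subgroup G) : Set G := {v | v * v = 1 ∧ v ∈ normalizer (W : Set G) ∧ v ∉ W}

/-- `F_U` -/
def Fx (k : ℕ) (W U : Subgroup G) : Set G := {y | y ∈ Sg k W ∧ Cent y U}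

/-- `Fix v` -/
def Fi (k : ℕ) (W : Subgroup G) (v : G) : Set G := {y | y ∈ Sg k W ∧ y * v = v * y}

/-- the set of the `F_U` -/
def FF (k : ℕ) (W : Subgroup G) : Set (Set G) :=
  {F | ∃ U : Subgroup G, MaxTwo (normalizer (W : Set G)) U ∧ F = Fx k W U}

/-- the stabiliser in `N(W)` of a set -/
def Stb (W : Subgroup G) (F : Set G) : Subgroup G where
  carrier := {g | g ∈ normalizer (W : Set G) ∧ ∀ y, y ∈ F ↔ g * y * g⁻¹ ∈ F}
  one_mem' := ⟨one_mem _, fun y => by simp⟩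
  mul_mem' := by
    rintro a b ⟨ha, ha'⟩ ⟨hb, hb'⟩
    refine ⟨mul_mem ha hb, fun y => ?_⟩
    rw [hb', ha']
    have e : a * (b * y * b⁻¹) * a⁻¹ = a * b * y * (a * b)⁻¹ := by group
    rw [e]
  inv_mem' := by
    rintro a ⟨ha, ha'⟩
    refine ⟨inv_mem ha, fun y => ?_⟩
    have e : a * (a⁻¹ * y * a⁻¹⁻¹) * a⁻¹ = y := by group
    rw [ha' (a⁻¹ * y * a⁻¹⁻¹), e]

end E1adP
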