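import Mathlib
import Pool.Agent.Lib.MP_1ad17e_al_P.Defs

/-!
MP_1ad17e_al: the output of section 3.
-/

set_option autoImplicit false

namespace E1adP

open Subgroup E1adH58 E1adH59
open scoped commutatorElement

variable {G : Type*} [Group G]

/-- the output of section 3 -/
structure Core (k : ℕ) (W D : Subgroup G) (y0 : G) : Prop where
  hD : IsPGroup 2 D
  hWD : W ≤ D
  hOm : Om D = W
  hy0 : y0 ∈ Sg k W
  /-- (M4) -/
  hM4 : ∀ E : Subgroup G, IsPGroup 2 E → E ≤ normalizer (W : Set G) → (∀ x ∈ E, x * y0 = y0 * x) →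
    Nat.card (D ⊓ centralizer {y0} : Subgroup G) < Nat.card E → ∀ F ∈ FF k W, E ≤ Stb W F → y0 ∈ F
  /-- (3.4) all involutions of `M / D` are conjugate -/
  h34 : ∀ s s' : G, s ∈ normalizer (D : Set G) → s ∉ D → s * s ∈ D →
    s' ∈ normalizer (D : Set G) → s' ∉ D → s' * s' ∈ D →
      ∃ g ∈ normalizer (D : Set G), ∃ d ∈ D, g * s * g⁻¹ = s' * d
  /-- (3.6) -/
  h36 : ∀ s : G, s ∈ normalizer (D : Set G) → s ∉ D → s * s ∈ D → ∃ d ∈ D, s * d ∈ II W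
  /-- (3.7) -/
  h37a : ∀ v ∈ II W, v ∈ normalizer (D : Set G) → ∀ d ∈ D, v * d ∈ II W → Fi k W (v * d) = Fi k W v
  h37b : ∀ v ∈ II W, v ∈ normalizer (D : Set G) → ∀ d ∈ D, ∀ y ∈ Fi k W v, d * y * d⁻¹ ∈ Fi k W v
  /-- (3.8) -/
  h38 : ∃ bp ∈ II W, ∃ bm ∈ II W, bp ∈ normalizer (D : Set G) ∧ bm ∈ normalizer (D : Set G) ∧
    y0 ∈ Fi k W bp ∧ y0 ∉ Fi k W bm ∧ ∃ N : ℕ, Odd N ∧ (bp * bm) ^ N ∈ D
  /-- the group `U_+` -/
  hU : ∃ U : Subgroup G, MaxTwo (normalizer (W : Set G)) U ∧ D ≤ U ∧ y0 ∈ Fx k W U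

end E1adP
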