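import Mathlib
import Pool.Agent.Lib.MP_1ad17e_al_P.Core
import Pool.Agent.Lib.MP_1ad17e_al_h59.SixTwo
import Pool.Agent.Lib.MP_1ad17e_al_h82.S2b
import Pool.Agent.Lib.MP_1ad17e_al_h58.Dih

/-!
MP_1ad17e_al, section 6: no bad pair.
-/

set_option autoImplicit false

universe u

namespace E1adP

open Subgroup E1adH4 E1adH58 E1adH59
open scoped commutatorElement

variable {G : Type u} [Group G] [Finite G]

/-- a maximal 2-subgroup as a Sylow subgroup -/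
theorem exists_sylow_of_maxTwo {T : Subgroup G} (h : MaxTwo (⊤ : Subgroup G) T) :
    ∃ P : Sylow 2 G, (P : Subgroup G) = T :=
  ⟨⟨T, h.2.1, fun hQ hle => le_antisymm (h.2.2 _ le_top hQ hle) hle⟩, rfl⟩

/-- (6.2), (6.6): there is no core. -/
theorem no_core {n k C : ℕ} (hcl : Cls G n) (hk : k = n + C) (hn : n + 3 ≤ 12 * 2 ^ C)
    {W D : Subgroup G} {y0 : G} (hW : Bad k W) (hC : Core k W D y0)
    (hA : ∀ T : Subgroup G, IsPGroup 2 T → D ≤ T → ∀ a m : ℕ, ¬ lamS T a ≤ D → lamS T (a + 1) ≤ D →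
      ∀ d ∈ D, d ^ (2 ^ m) = y0 → n ≤ m + (a + 1) + 1 → False) : False := by
  obtain ⟨U, hU, hDU, hyU⟩ := hC.hU
  obtain ⟨T, hT, hUT⟩ := exists_maxTwo hU.2.1 (N := (⊤ : Subgroup G)) le_top
  have hDT : D ≤ T := hDU.trans hUT
  have hTD : ¬ T ≤ D := by
    intro h
    apply s2_2 hW hT
    rw [le_antisymm h hDT]
    exact hC.hOm
  obtain ⟨P, hP⟩ := exists_sylow_of_maxTwo hT
  have hPn : (P : Subgroup G).lowerCentralSeries n = ⊥ := hcl _ P.isPGroup'
  have hyc : Cent y0 T := (s2_4b hW hU hT hUT hyU.1).1 hyU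
  have hyYY := hC.hy0.1
  have hyD : y0 ∈ D := hC.hWD hC.hy0.2.1
  refine sec62 P D (by rw [hP]; exact hDT) (by rw [hP]; exact hTD) hPn hk hn hyD hyYY.1 hyYY.2.2 ?_ ?_ ?_
  · rw [hP]
    exact hyc
  · intro g hgP hgD hgn hgg
    have hgN : g ∈ normalizer (D : Set G) := E1adH58.mem_normalizer_of hgn
    obtain ⟨d, hd, hgd⟩ := hC.h36 g hgN hgD hgg
    exact ⟨g * d, hgd.1, d, hd, rfl⟩
  · intro a ha ha' d hd m hdm
    by_contra hlt
    exact hA P P.isPGroup' (by rw [hP]; exact hDT) a m ha ha' d hd hdm (by omega)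

end E1adP
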