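import Mathlib
import Pool.Agent.Lib.MP_1ad17e_al_P.Core
import Pool.Agent.Lib.MP_1ad17e_al_h59.LamS
import Pool.Agent.Lib.MP_1ad17e_al_h97.ThmA2

/-!
MP_1ad17e_al, section 5: Theorem A for the core.
-/

set_option autoImplicit false

namespace E1adP

open Subgroup E1adH4 E1adH58 E1adH59
open scoped commutatorElement

universe v

variable {G : Type v} [Group G]

/-- the element `u` of odd order -/
theorem exists_u {D : Subgroup G} (hD : IsPGroup 2 D) {bp bm : G} (hbp : bp * bp = 1)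
    (hbm : bm * bm = 1) {N : ℕ} (hN : Odd N) (hρ : (bp * bm) ^ N ∈ D) :
    ∃ (u : G) (o : ℕ), Odd o ∧ u ^ o = 1 ∧ bp * u * bp⁻¹ = u⁻¹ ∧ u ∈ closure {bp, bm} ∧
      ∃ δ ∈ D, u * bp = δ * bm := by
  obtain ⟨e, he⟩ := hD ⟨(bp * bm) ^ N, hρ⟩
  have he' : ((bp * bm) ^ N) ^ (2 ^ e) = 1 := by
    have := congrArg Subtype.val he
    simpa using this
  have hcop : Nat.Coprime (2 ^ e) N := Nat.Coprime.pow_left _ (Nat.coprime_two_left.2 hN)
  have hmod := Nat.ModEq.pow_totient hcop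
  have hNpos : 0 < N := hN.pos
  have hphi : 0 < N.totient := Nat.totient_pos.2 hNpos
  set c : ℕ := (2 ^ e) ^ N.totient with hc
  have hcpos : 1 ≤ c := Nat.one_le_iff_ne_zero.2 (by positivity)
  obtain ⟨t, ht⟩ : N ∣ c - 1 := (Nat.modEq_iff_dvd' hcpos).1 hmod.symm
  obtain ⟨c', hc'⟩ : (2 ^ e) ∣ c := dvd_pow_self _ hphi.ne'
  have hct : c = N * t + 1 := by omega
  have hδ : (bp * bm) ^ (N * t) ∈ D := by
    rw [pow_mul]
    exact pow_mem hρ t
  have hbpi : bp⁻¹ = bp := inv_eq_of_mul_eq_one_left hbp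
  have hbmi : bm⁻¹ = bm := inv_eq_of_mul_eq_one_left hbm
  have hinv : bp * (bp * bm) * bp⁻¹ = (bp * bm)⁻¹ := by
    rw [hbpi, mul_inv_rev, hbpi, hbmi]
    calc bp * (bp * bm) * bp = (bp * bp) * (bm * bp) := by group
      _ = bm * bp := by rw [hbp, one_mul]
  refine ⟨((bp * bm) ^ c)⁻¹, N, hN, ?_, ?_, ?_, ((bp * bm) ^ (N * t))⁻¹, inv_mem hδ, ?_⟩
  · rw [inv_pow, ← pow_mul, hc', show 2 ^ e * c' * N = N * 2 ^ e * c' by ring, pow_mul, pow_mul, he',
      one_pow, inv_one]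
  · have h1 : bp * ((bp * bm) ^ c)⁻¹ * bp⁻¹ = (bp * (bp * bm) ^ c * bp⁻¹)⁻¹ := by group
    rw [h1, ← conj_pow, hinv, inv_pow]
  · refine inv_mem (pow_mem (mul_mem (subset_closure ?_) (subset_closure ?_)) c)
    · simp
    · simp
  · rw [hct, pow_succ', mul_inv_rev, mul_assoc]
    congr 1
    rw [mul_inv_rev, hbpi, hbmi, mul_assoc, hbp, mul_one]

/-- THEOREM A for the core (the index `j` of the paper is `a + 1`). -/
theorem thmA_of {n k : ℕ} (hcl : Cls G n) {W D : Subgroup G} {y0 : G} (hC : Core k W D y0)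
    (hX : ∀ v : G, v * v = 1 → v ∈ normalizer ((D ⊓ centralizer {y0} : Subgroup G) : Set G) →
      v * y0 = y0 * v)
    {T : Subgroup G} (hT : IsPGroup 2 T) (hDT : D ≤ T) {a m : ℕ}
    (ha : ¬ lamS T a ≤ D) (ha' : lamS T (a + 1) ≤ D) {d : G} (hd : d ∈ D) (hdy : d ^ (2 ^ m) = y0)
    (hn : n ≤ m + (a + 1) + 1) : False := by
  obtain ⟨s, hs, hsD⟩ := Set.not_subset.1 ha
  have hsT : s ∈ T := lamS_le T a hs
  have hMN : normalizer (D : Set G) ≤ normalizer (W : Set G) := by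
    have := normalizer_le_Om D
    rwa [hC.hOm] at this
  have hsconj : ∀ x ∈ lamS T a, ∀ z ∈ D, x * z * x⁻¹ ∈ D := by
    intro x hx z hz
    have e : x * z * x⁻¹ = ⁅x, z⁆ * z := by
      rw [commutatorElement_def]
      group
    rw [e]
    exact mul_mem (ha' (lamS_comm hx (hDT hz))) hz
  have hsM : s ∈ normalizer (D : Set G) := by
    rw [mem_normalizer_iff]
    intro z
    refine ⟨hsconj s hs z, fun h => ?_⟩
    have h1 := hsconj s⁻¹ (inv_mem hs) _ h
    have e : s⁻¹ * (s * z * s⁻¹) * s⁻¹⁻¹ = z := by group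
    rwa [e] at h1
  have hssD : s * s ∈ D := ha' (lamS_sq hs)
  obtain ⟨bp, hbpI, bm, hbmI, hbpM, hbmM, hbpy, hbmy, N, hN, hρ⟩ := hC.h38
  have hID : ∀ v ∈ II W, v ∉ D := fun v hv hvD => hv.2.2 (hC.hOm ▸ mem_Om hvD hv.1)
  have hbpD : bp ∉ D := hID bp hbpI
  obtain ⟨g, hg, d', hd', hgs⟩ := hC.h34 s bp hsM hsD hssD hbpM hbpD (by
    rw [hbpI.1]; exact one_mem D)
  -- the conjugate of T
  set φ : G →* G := (MulAut.conj g).toMonoidHom with hφ
  have hφx : ∀ x, φ x = g * x * g⁻¹ := fun x => rfl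
  have hT' : IsPGroup 2 (T.map φ) := hT.map φ
  have hDT' : D ≤ T.map φ := by
    intro z hz
    have h1 := (mem_normalizer_iff.1 hg (g⁻¹ * z * g))
    have e : g * (g⁻¹ * z * g) * g⁻¹ = z := by group
    rw [e] at h1
    exact ⟨g⁻¹ * z * g, hDT (h1.2 hz), e⟩
  have hs' : g * s * g⁻¹ ∈ lamS (T.map φ) a := by
    rw [← lamS_map]
    exact ⟨s, hs, rfl⟩
  have hs'T : g * s * g⁻¹ ∈ T.map φ := lamS_le _ _ hs'
  have hMmem : ∀ {x : G}, x ∈ normalizer (D : Set G) → ∀ z ∈ D, x * z * x⁻¹ ∈ D := by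
    intro x hx z hz
    exact (mem_normalizer_iff.1 hx z).1 hz
  have hgsM : g * s * g⁻¹ ∈ normalizer (D : Set G) := mul_mem (mul_mem hg hsM) (inv_mem hg)
  have hbeq : bp = (g * s * g⁻¹ * d'⁻¹ * (g * s * g⁻¹)⁻¹) * (g * s * g⁻¹) := by
    have : bp = g * s * g⁻¹ * d'⁻¹ := by rw [hgs]; group
    rw [inv_mul_cancel_right]
    exact this
  obtain ⟨u, o, ho, huo, hbu, hucl, δ, hδ, huδ⟩ := exists_u hC.hD hbpI.1 hbmI.1 hN hρ
  have huM : u ∈ normalizer (D : Set G) := by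
    have h1 : closure {bp, bm} ≤ normalizer (D : Set G) := by
      rw [closure_le]
      intro z hz
      rcases hz with rfl | hz
      · exact hbpM
      · rw [Set.mem_singleton_iff.1 hz]
        exact hbmM
    exact h1 hucl
  have key := E1adH97.theoremA (D := D) (T := T.map φ) hDT' (n := n) (m := m) (j := a + 1)
    (hcl _ hT') hn (by omega) (b := bp) (u := u) (y := y0) (d := d)
    (s := g * s * g⁻¹ * d'⁻¹ * (g * s * g⁻¹)⁻¹) (x := g * s * g⁻¹) hbpI.1
    (by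
      rw [hbeq]
      exact mul_mem (hDT' (hMmem hgsM _ (inv_mem hd'))) hs'T)
    (hMmem hbpM) (hMmem hgsM _ (inv_mem hd')) hs'T (lamS_mem_Lam hs') hbeq (hMmem huM) ho huo hbu hd hdy
    hC.hy0.1.1
    (by
      intro c hc hcc
      exact hC.hy0.2.2 c (hC.hOm ▸ mem_Om hc hcc))
    (by
      intro z hz
      exact (hC.h37b bp hbpI hbpM z hz y0 hbpy).2.symm)
  -- the involution `v = u * bp`
  have hbpi : bp⁻¹ = bp := inv_eq_of_mul_eq_one_left hbpI.1
  have hvv : u * bp * (u * bp) = 1 := by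
    rw [hbpi] at hbu
    calc u * bp * (u * bp) = u * (bp * u * bp) := by group
      _ = 1 := by rw [hbu, mul_inv_cancel]
  have hvM : u * bp ∈ normalizer (D : Set G) := mul_mem huM hbpM
  have hvD : ∀ z ∈ D, ⁅z, u * bp⁆ ∈ D := by
    intro z hz
    have e : ⁅z, u * bp⁆ = z * (u * bp * z⁻¹ * (u * bp)⁻¹) := by
      rw [commutatorElement_def]
      group
    rw [e]
    exact mul_mem hz (hMmem hvM _ (inv_mem hz))
  have hvX : ∀ z ∈ (D ⊓ centralizer {y0} : Subgroup G),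
      u * bp * z * (u * bp)⁻¹ ∈ (D ⊓ centralizer {y0} : Subgroup G) := by
    intro z hz
    rw [mem_inf, mem_centralizer_singleton_iff] at hz ⊢
    refine ⟨hMmem hvM z hz.1, ?_⟩
    have h1 := key z hz.1
    have e : u * bp * z * (u * bp)⁻¹ = (⁅z, u * bp⁆)⁻¹ * z := by
      rw [commutatorElement_def]
      group
    have h2 : Commute (⁅z, u * bp⁆) y0 := h1
    have h3 : Commute z y0 := hz.2
    rw [e]
    exact (h2.inv_left.mul_left h3).eq
  have hvi : (u * bp)⁻¹ = u * bp := inv_eq_of_mul_eq_one_left hvv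
  have hvnX : u * bp ∈ normalizer ((D ⊓ centralizer {y0} : Subgroup G) : Set G) := by
    rw [mem_normalizer_iff]
    intro z
    refine ⟨hvX z, fun h => ?_⟩
    have h1 := hvX _ h
    have e : u * bp * (u * bp * z * (u * bp)⁻¹) * (u * bp)⁻¹ = z := by
      rw [hvi]
      calc u * bp * (u * bp * z * (u * bp)) * (u * bp) = (u * bp * (u * bp)) * z * (u * bp * (u * bp)) := by
            group
        _ = z := by rw [hvv]; group
    rwa [e] at h1
  have hcomm := hX _ hvv hvnX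
  -- but `v ∈ bm D`
  have hveq : u * bp = bm * (bm⁻¹ * δ * bm) := by rw [huδ]; group
  have hδ' : bm⁻¹ * δ * bm ∈ D := by
    have := hMmem (inv_mem hbmM) δ hδ
    rwa [inv_inv] at this
  have hvI : u * bp ∈ II W := by
    refine ⟨hvv, hMN hvM, fun h => ?_⟩
    have h1 : u * bp ∈ D := hC.hWD h
    apply hID bm hbmI
    have h2 : bm = δ⁻¹ * (u * bp) := by rw [huδ]; group
    rw [h2]
    exact mul_mem (inv_mem hδ) h1
  have h7 := hC.h37a bm hbmI hbmM _ hδ' (hveq ▸ hvI)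
  rw [← hveq] at h7
  apply hbmy
  rw [← h7]
  exact ⟨hC.hy0, hcomm.symm⟩

end E1adP
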