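import Mathlib
import Pool.Agent.Lib.MP_1ad17e_al_P.Fin
import Pool.Agent.Lib.MP_1ad17e_al_P.ThmA
import Pool.Agent.Lib.MP_1ad17e_al_h16.LemX
import Pool.Agent.Lib.MP_1ad17e_al_h58.S3

/-!
MP_1ad17e_al: the commutation theorem.
-/

set_option autoImplicit false

universe u

namespace E1adP

open Subgroup E1adH4 E1adH58 E1adH59
open scoped commutatorElement

variable {G : Type u} [Group G] [Finite G]

/-- Lemma X -/
theorem lemmaX' {n k : ℕ} (hcl : Cls G n) (hnk : n ≤ k) {W : Subgroup G} (hW : Bad k W)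
    {X : Subgroup G} {y0 : G} (hy0 : y0 ∈ Sg k W) (hX : IsPGroup 2 X)
    (hXy : ∀ x ∈ X, x * y0 = y0 * x) (hOm : Om X = W)
    (hM4 : ∀ E : Subgroup G, IsPGroup 2 E → E ≤ normalizer (W : Set G) →
      (∀ x ∈ E, x * y0 = y0 * x) → Nat.card X < Nat.card E → ∀ F ∈ FF k W, E ≤ Stb W F → y0 ∈ F) :
    ∀ v : G, v * v = 1 → v ∈ normalizer (X : Set G) → v * y0 = y0 * v := by
  intro v hv hvN
  obtain ⟨T, hT, hXT, r, hrT, hr⟩ := s2_1 hy0.1 hX hXy
  have hcent : Cent y0 T := by
    have := k5 hcl hnk hT.2.1 hrT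
    rwa [hr] at this
  have hXS : X ≤ T ⊓ centralizer {y0} := by
    intro x hx
    exact mem_inf.2 ⟨hXT hx, mem_centralizer_singleton_iff.2 (hXy x hx)⟩
  have hne : X ≠ T ⊓ centralizer {y0} := by
    intro h
    apply s2_2 hW hT
    apply le_antisymm
    · rw [Om_le_iff]
      intro v hvT hv2
      have h1 : v ∈ X := by
        rw [h]
        exact mem_inf.2 ⟨hvT, mem_centralizer_singleton_iff.2 (hcent v hvT hv2).symm⟩
      rw [← hOm]
      exact mem_Om h1 hv2
    · rw [← hOm]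
      exact Om_mono hXT
  have hS2 : IsPGroup 2 (T ⊓ centralizer {y0} : Subgroup G) := hT.2.1.to_le inf_le_left
  refine E1adH16.lemmaX (normalizer (W : Set G)) X (T ⊓ centralizer {y0}) (r := r) hnk hS2
    (hcl _ hS2) (lt_of_le_of_ne hXS hne) ?_ ?_ hr hy0.1.1 ?_ ?_ hvN hv ?_
  · intro z hz
    exact mem_centralizer_singleton_iff.1 hz.2
  · refine mem_inf.2 ⟨hrT, mem_centralizer_singleton_iff.2 ?_⟩
    rw [← hr]
    exact (Commute.self_pow r _).eq
  · have h1 := hy0.2.1
    rw [← hOm] at h1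
    exact Om_le _ h1
  · have := normalizer_le_Om X
    rwa [hOm] at this
  · intro E B hB hBN hEB hXE hEy w hw hw2
    by_cases hwW : w ∈ W
    · exact (hy0.2.2 w hwW).symm
    obtain ⟨U, hU, hBU⟩ := exists_maxTwo hB hBN
    have hwII : w ∈ II W := ⟨hw2, hBN hw, hwW⟩
    have h5 := s2_5 hW hU hwII (hBU hw)
    have h6 : y0 ∈ Fx k W U := by
      refine hM4 E (hB.to_le hEB) (hEB.trans hBN) hEy ?_ _ ⟨U, hU, rfl⟩ ?_
      · exact Set.ncard_lt_ncard hXE (Set.toFinite _)
      · exact (hEB.trans hBU).trans (s2_6c hU)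
    rw [← h5] at h6
    exact h6.2.symm

/-- there is no bad pair -/
theorem no_bad {n k C : ℕ} (hcl : Cls G n) (hk : k = n + C) (hn : n + 3 ≤ 12 * 2 ^ C)
    {W : Subgroup G} (hW : Bad k W) : False := by
  have hnk : n ≤ k := by omega
  obtain ⟨D, y0, hC⟩ := s3 hcl hnk hW
  have hDc : IsPGroup 2 (D ⊓ centralizer {y0} : Subgroup G) := hC.hD.to_le inf_le_left
  have hOm : Om (D ⊓ centralizer {y0}) = W := by
    apply le_antisymm
    · have := Om_mono (inf_le_left : D ⊓ centralizer {y0} ≤ D)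
      rwa [hC.hOm] at this
    · have h1 : W ≤ D ⊓ centralizer {y0} := by
        intro w hw
        exact mem_inf.2 ⟨hC.hWD hw, mem_centralizer_singleton_iff.2 (hC.hy0.2.2 w hw).symm⟩
      have h2 := Om_mono h1
      rwa [bad_om hW] at h2
  have hX := lemmaX' hcl hnk hW hC.hy0 hDc
    (fun x hx => mem_centralizer_singleton_iff.1 hx.2) hOm hC.hM4
  exact no_core hcl hk hn hW hC (fun T hT hDT a m ha ha' d hd hdm hnm =>
    thmA_of hcl hC hX hT hDT ha ha' hd hdm hnm)

/-- the commutation theorem -/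
theorem commute_all {n k C : ℕ} (hcl : Cls G n) (hk : k = n + C) (hn : n + 3 ≤ 12 * 2 ^ C)
    {y r b : G} (hy : y * y = 1) (hr : r ^ (2 ^ k) = y) (hb : b * b = 1) {P : Subgroup G}
    (hP : IsPGroup 2 P) (hyP : y ∈ P) (hbP : b ∈ P) : y * b = b * y := by
  by_cases hy1 : y = 1
  · rw [hy1, one_mul, mul_one]
  obtain ⟨T, hT, hPT⟩ := exists_maxTwo hP (N := (⊤ : Subgroup G)) le_top
  by_contra hne
  obtain ⟨W, hW⟩ := exists_bad (k := k) (G := G)
    ⟨T, y, hT, ⟨hy, hy1, r, hr⟩, hPT hyP, fun h => hne (h b (hPT hbP) hb)⟩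
  exact no_bad hcl hk hn hW

/-- the same with helper4's `Good` -/
theorem good {n k C : ℕ} (hk : k = n + C) (hn : n + 3 ≤ 12 * 2 ^ C) (T : Sylow 2 G)
    (hT : Group.nilpotencyClass (T : Subgroup G) ≤ n) : Good G k := by
  have hcl : Cls G n := by
    intro S hS
    obtain ⟨P, hP⟩ := hS.exists_le_sylow
    have hTn : (T : Subgroup G).lowerCentralSeries n = ⊥ := by
      have hnil : Group.IsNilpotent (T : Subgroup G) := T.isPGroup'.isNilpotent
      have h1 : (⊤ : Subgroup (T : Subgroup G)).lowerCentralSeries n = ⊥ :=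
        Subgroup.lowerCentralSeries_eq_bot_iff_nilpotencyClass_le.2 hT
      have h2 := Subgroup.top_subtype_lowerCentralSeries (T : Subgroup G) n
      rw [← h2, h1, Subgroup.map_bot]
    have hPn := sylow_lcs T P hTn
    have hmono : ∀ m, S.lowerCentralSeries m ≤ (P : Subgroup G).lowerCentralSeries m := by
      intro m
      induction m with
      | zero => exact hP
      | succ m ih => exact Subgroup.commutator_mono ih hP
    have := hmono n
    rw [hPn] at this
    exact le_bot_iff.1 this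
  intro y r b hy hr hb P hP hyP hbP
  exact commute_all hcl hk hn hy hr hb hP hyP hbP

/-- the final form -/
theorem good_of_paper {n C : ℕ} (hn : n + 3 ≤ 12 * 2 ^ C) (P : Sylow 2 G)
    (hP : Group.nilpotencyClass (P : Subgroup G) ≤ n) : E1adH4.Good G (n + C) :=
  good rfl hn P hP

end E1adP
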